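import Pool.Agent.W256.Points

/-!
# Growth of products of spaces

`XV` for a subspace `X` of a field and a space `V` which satisfies the product inequality
`dim X' * dim V ≤ dim (X' V) + dim X' * (dim X' - 1)`.
-/

set_option autoImplicit false

namespace Pool.Agent.W256

open Module

variable {K L : Type*} [Field K] [Field L] [Algebra K L]

/-- dimension of the part of `W` in the kernel of `e`, when `e` maps some smaller space onto
`K ^ d` -/
theorem finrank_inf_ker {d : ℕ} (e : L →ₗ[K] (Fin d → K)) (X W : Submodule K L)
    [FiniteDimensional K W] (hXW : X ≤ W)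
    (hs : Function.Surjective (e.comp X.subtype)) :
    finrank K (W ⊓ LinearMap.ker e : Submodule K L) + d = finrank K W := by
  have hs' : Function.Surjective (e.comp W.subtype) := by
    intro v
    obtain ⟨x, hx⟩ := hs v
    exact ⟨⟨x.1, hXW x.2⟩, hx⟩
  have h1 := LinearMap.finrank_range_add_finrank_ker (e.comp W.subtype)
  rw [LinearMap.range_eq_top.mpr hs', finrank_top, finrank_fin_fun] at h1
  have h2 : finrank K (W ⊓ LinearMap.ker e : Submodule K L) =
      finrank K (LinearMap.ker (e.comp W.subtype)) := by
    have h3 : (LinearMap.ker (e.comp W.subtype)).map W.subtype = W ⊓ LinearMap.ker e := by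
      ext x
      simp only [Submodule.mem_map, LinearMap.mem_ker, LinearMap.comp_apply, Submodule.subtype_apply,
        Submodule.mem_inf]
      constructor
      · rintro ⟨y, hy, rfl⟩
        exact ⟨y.2, hy⟩
      · rintro ⟨h4, h5⟩
        exact ⟨⟨x, h4⟩, h5, rfl⟩
    rw [← h3]
    exact (LinearEquiv.finrank_eq (Submodule.equivMapOfInjective W.subtype W.injective_subtype _)).symm
  omega

/-- the algebra generated by two finite dimensional spaces is finitely generated -/
theorem fg_adjoin (X V : Submodule K L) [FiniteDimensional K X] [FiniteDimensional K V] :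
    (Algebra.adjoin K ((X : Set L) ∪ V)).FG := by
  obtain ⟨S, hS⟩ := (IsNoetherian.noetherian (⊤ : Submodule K X)).map X.subtype
  obtain ⟨T, hT⟩ := (IsNoetherian.noetherian (⊤ : Submodule K V)).map V.subtype
  rw [Submodule.map_subtype_top] at hS hT
  classical
  refine ⟨S ∪ T, ?_⟩
  apply le_antisymm
  · apply Algebra.adjoin_mono
    rw [Finset.coe_union]
    apply Set.union_subset_union
    · rw [← hS]; exact Submodule.subset_span
    · rw [← hT]; exact Submodule.subset_span
  · rw [Algebra.adjoin_le_iff]
    rintro x (hx | hx)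
    · have : x ∈ Submodule.span K (S : Set L) := by rw [hS]; exact hx
      exact Algebra.span_le_adjoin K _ (Submodule.span_mono (by
        rw [Finset.coe_union]; exact Set.subset_union_left) this)
    · have : x ∈ Submodule.span K (T : Set L) := by rw [hT]; exact hx
      exact Algebra.span_le_adjoin K _ (Submodule.span_mono (by
        rw [Finset.coe_union]; exact Set.subset_union_right) this)

/-- **Growth of products.** Let `V ≠ 0`. If all `s`-dimensional subspaces `Y` of `X` satisfy
`s * dim V ≤ dim (Y V) + s * (s - 1)`, then `dim X + s * dim V ≤ dim (X V) + s * s`. -/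
theorem growth_of [IsAlgClosed K] (X V : Submodule K L) [FiniteDimensional K X] [FiniteDimensional K V]
    (hV : V ≠ ⊥) (s : ℕ) (hs : s ≤ finrank K X)
    (H : ∀ Y : Submodule K L, Y ≤ X → finrank K Y = s →
      s * finrank K V ≤ finrank K (Y * V : Submodule K L) + s * (s - 1)) :
    finrank K X + s * finrank K V ≤ finrank K (X * V : Submodule K L) + s * s := by
  obtain ⟨u, huV, hu⟩ := Submodule.exists_mem_ne_zero_of_ne_bot hV
  set R := Algebra.adjoin K ((X : Set L) ∪ V) with hR
  have hXR : ∀ x ∈ X, x ∈ R := fun x hx => Algebra.subset_adjoin (Or.inl hx)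
  have hVR : ∀ x ∈ V, x ∈ R := fun x hx => Algebra.subset_adjoin (Or.inr hx)
  obtain ⟨e, he, heu, hes⟩ := exists_eval R (fg_adjoin X V) u (hVR u huV) hu X hXR
    (finrank K X - s) (Nat.sub_le _ _)
  have : FiniteDimensional K (X * V : Submodule K L) :=
    Module.Finite.iff_fg.mpr (Submodule.FG.mul (Module.Finite.iff_fg.mp inferInstance)
      (Module.Finite.iff_fg.mp inferInstance))
  have hXV : Function.Surjective (e.comp (X * V : Submodule K L).subtype) := by
    intro v
    obtain ⟨x, hx⟩ := hes (fun i => (e u i)⁻¹ * v i)
    have hx' : e x = fun i => (e u i)⁻¹ * v i := hx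
    refine ⟨⟨x * u, Submodule.mul_mem_mul x.2 huV⟩, ?_⟩
    change e (x * u) = v
    rw [he x (hXR x x.2) u (hVR u huV), hx']
    funext i
    rw [Pi.mul_apply]
    field_simp [heu i]
  have k1 := finrank_inf_ker e X X le_rfl hes
  have k2 := finrank_inf_ker e (X * V) (X * V) le_rfl hXV
  set Y := X ⊓ LinearMap.ker e with hY
  have hYs : finrank K Y = s := by omega
  have k3 := H Y inf_le_left hYs
  have k4 : Y * V ≤ (X * V) ⊓ LinearMap.ker e := by
    refine le_inf (mul_le_mul' inf_le_left le_rfl) ?_
    rw [Submodule.mul_le]
    intro y hy v hv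
    have hy2 : e y = 0 := hy.2
    rw [LinearMap.mem_ker, he y (hXR y hy.1) v (hVR v hv), hy2, zero_mul]
  have : FiniteDimensional K ((X * V) ⊓ LinearMap.ker e : Submodule K L) :=
    Submodule.finiteDimensional_inf_left _ _
  have k5 := Submodule.finrank_mono k4
  have k6 : s * (s - 1) + s = s * s := by
    rcases s with _ | s
    · rfl
    · simp; ring
  omega

end Pool.Agent.W256
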