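import Pool.Agent.W256.Curve5
import Pool.Agent.W254.HP.Prod

/-!
# Fields of transcendence degree one: the degrees of independent linear forms in logarithms
-/

set_option autoImplicit false

namespace Pool.Agent.W256

open Polynomial IntermediateField Module
open scoped IntermediateField.algebraAdjoinAdjoin

section

variable {K F : Type*} [Field K] [Field F] [Algebra K F]

theorem dep_of_algebraic (x : F) (hx : Algebra.IsAlgebraic K⟮x⟯ F) (u v : F) :
    ∃ P : MvPolynomial (Fin 2) K, P ≠ 0 ∧ MvPolynomial.aeval ![u, v] P = 0 := by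
  by_contra hcon
  push Not at hcon
  have h1 : AlgebraicIndependent K ![u, v] := by
    rw [algebraicIndependent_iff]
    intro p hp
    by_contra h0
    exact hcon p h0 hp
  have h2 := h1.lift_cardinalMk_le_trdeg
  have h3 : Algebra.IsAlgebraic (Algebra.adjoin K {x}) F :=
    (IsFractionRing.comap_isAlgebraic_iff (A := Algebra.adjoin K {x}) (K := K⟮x⟯)).mpr hx
  have h4 : Algebra.trdeg K F ≤ 1 := by
    have := Algebra.IsAlgebraic.trdeg_le_cardinalMk K (A := F) {x}
    rwa [Cardinal.mk_singleton] at this
  have h5 := h2.trans (Cardinal.lift_le.mpr h4)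
  simp at h5

/-- **Growth bounds the degree.** Let `F` be finite over `K(f i)` for all `i`, `V` the span of `1`
and the `f i`. If `dim V ^ (m + 1) ≥ dim V ^ m + c` for all `m ≥ 1` and `V` is not the space of
constants, then `c ≤ ∑ [F : K(f i)]`. -/
theorem sum_degrees_ge [IsAlgClosed K] {N : ℕ} (f : Fin N → F)
    (hfin : ∀ i, FiniteDimensional K⟮f i⟯ F) (i₀ : Fin N)
    (hi₀ : ¬ ∃ c : K, f i₀ = algebraMap K F c) (c : ℕ)
    (hgrow : ∀ m, 1 ≤ m → finrank K ((Submodule.span K ({1} ∪ Set.range f)) ^ m : Submodule K F) + c ≤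
      finrank K ((Submodule.span K ({1} ∪ Set.range f)) ^ (m + 1) : Submodule K F)) :
    c ≤ ∑ i, finrank K⟮f i⟯ F := by
  classical
  set V : Submodule K F := Submodule.span K ({1} ∪ Set.range f) with hV
  have halg : Algebra.IsAlgebraic K⟮f i₀⟯ F := inferInstance
  obtain ⟨g, hg, hgd⟩ := exists_generic (dep_of_algebraic (f i₀) halg) Finset.univ f
    (fun i => finrank K⟮f i⟯ F) (fun i _ => Or.inr ⟨hfin i, le_rfl⟩)
  have hgc : ¬ ∃ c : K, g = algebraMap K F c := fun h =>
    hi₀ (const_of_intAt h (hg i₀ (Finset.mem_univ _)))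
  obtain ⟨hgfin, hgle⟩ := hgd.resolve_left hgc
  have hVg : V ≤ intSub K g 1 := by
    rw [hV, Submodule.span_le]
    rintro x (hx | ⟨i, rfl⟩)
    · rw [Set.mem_singleton_iff] at hx
      subst hx
      have := IntAt.const (K := K) g 1 1
      rwa [map_one] at this
    · exact hg i (Finset.mem_univ _)
  have hVfd : FiniteDimensional K V := FiniteDimensional.span_of_finite K
    ((Set.finite_singleton _).union (Set.finite_range f))
  have hub := finrank_pow_le g (transcendental_of_not_const hgc) V hVg
  set n := finrank K⟮g⟯ F with hn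
  refine le_trans ?_ hgle
  have hlow : ∀ m, m * c ≤ finrank K (V ^ (m + 1) : Submodule K F) := by
    intro m
    induction m with
    | zero => simp
    | succ m ih =>
      have := hgrow (m + 1) (Nat.succ_le_succ (Nat.zero_le m))
      calc (m + 1) * c = m * c + c := by ring
        _ ≤ _ := Nat.add_le_add_right ih c
        _ ≤ _ := this
  have h1 := (hlow (n + 2)).trans (hub (n + 3))
  by_contra h2
  push Not at h2
  have h3 : (n + 2) * (n + 1) ≤ (n + 2) * c := Nat.mul_le_mul_left _ h2
  have h4 : (n + 2) * (n + 1) ≤ (n + 3) * n + 1 := h3.trans h1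
  nlinarith

end

theorem half_mul (v : ℕ) : v / 2 * v = v ^ 2 / 4 + v / 2 * (v / 2) := by
  rcases Nat.even_or_odd' v with ⟨k, rfl | rfl⟩
  · have h1 : 2 * k / 2 = k := by omega
    have h2 : (2 * k) ^ 2 / 4 = k * k := by
      rw [show (2 * k) ^ 2 = 4 * (k * k) by ring]; omega
    rw [h1, h2]; ring
  · have h1 : (2 * k + 1) / 2 = k := by omega
    have h2 : (2 * k + 1) ^ 2 / 4 = k * k + k := by
      rw [show (2 * k + 1) ^ 2 = 4 * (k * k + k) + 1 by ring]; omega
    rw [h1, h2]; ring

open Pool.Agent.H301R2.SSE in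
/-- growth of the powers of a space of linear forms in logarithms -/
theorem pow_growth (V : Submodule QB ℂ) [FiniteDimensional QB V] (hV : V ≤ Lt)
    (h1 : (1 : ℂ) ∈ V) (m : ℕ) (hm : 1 ≤ m) :
    finrank QB (V ^ m : Submodule QB ℂ) + finrank QB V ^ 2 / 4 ≤
      finrank QB (V ^ (m + 1) : Submodule QB ℂ) := by
  have hac : IsAlgClosed QB := (algebraicClosure.isAlgClosure ℚ ℂ).isAlgClosed
  have hfd : ∀ k, FiniteDimensional QB (V ^ k : Submodule QB ℂ) := fun k =>
    Module.Finite.iff_fg.mpr (Submodule.FG.pow (Module.Finite.iff_fg.mp inferInstance) k)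
  have := hfd m
  have := hfd (m + 1)
  have hle : V ≤ V ^ m := by
    obtain ⟨k, rfl⟩ : ∃ k, m = k + 1 := ⟨m - 1, by omega⟩
    have h2 : (1 : Submodule QB ℂ) ≤ V ^ k := by
      rw [Submodule.one_le]
      clear hm
      have : ∀ j, (1 : ℂ) ∈ V ^ j := by
        intro j
        induction j with
        | zero => rw [pow_zero]; exact Submodule.one_le.mp le_rfl
        | succ j ih =>
          rw [pow_succ]
          have := Submodule.mul_mem_mul ih h1
          rwa [mul_one] at this
      exact this k
    calc V = 1 * V := (one_mul V).symm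
      _ ≤ V ^ k * V := mul_le_mul' h2 le_rfl
      _ = V ^ (k + 1) := (pow_succ V k).symm
  have hfr := Submodule.finrank_mono hle
  have hV0 : V ≠ ⊥ := by
    rintro rfl
    exact one_ne_zero ((Submodule.mem_bot QB).mp h1)
  have key := growth_of (V ^ m) V hV0 (finrank QB V / 2) (by omega) (by
    intro Y hYX hYs
    have : FiniteDimensional QB Y := Submodule.finiteDimensional_of_le hYX
    have : FiniteDimensional QB (Y * V : Submodule QB ℂ) :=
      Module.Finite.iff_fg.mpr (Submodule.FG.mul (Module.Finite.iff_fg.mp inferInstance)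
        (Module.Finite.iff_fg.mp inferInstance))
    have h := Pool.Agent.W254.HP.product_le Y V (Y * V) hV
      (fun x hx w hw => Submodule.mul_mem_mul hx hw)
    rwa [hYs] at h)
  rw [← pow_succ] at key
  have h3 := half_mul (finrank QB V)
  omega

open Pool.Agent.H301R2.SSE in
/-- **Degrees of linear forms in logarithms.** -/
theorem degrees_of_forms (F : IntermediateField QB ℂ) (N : ℕ) (x : Fin N → F)
    (hx : ∀ i, (x i : ℂ) ∈ Lt) (hli : LinearIndependent QB (Fin.cons 1 x : Fin (N + 1) → F))
    (hfin : ∀ i, FiniteDimensional (adjoin QB {x i}) F) :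
    (N + 1) ^ 2 / 4 ≤ ∑ i, finrank (adjoin QB {x i}) F := by
  classical
  have hac : IsAlgClosed QB := (algebraicClosure.isAlgClosure ℚ ℂ).isAlgClosed
  rcases N with _ | N
  · simp
  have hcons : Set.range (Fin.cons 1 x : Fin (N + 1 + 1) → F) = {1} ∪ Set.range x := by
    rw [Fin.range_cons, Set.singleton_union]
  refine sum_degrees_ge x hfin 0 ?_ _ ?_
  · rintro ⟨c, hc⟩
    obtain ⟨h1, h2⟩ := linearIndependent_finCons.mp hli
    have hc0 : c ≠ 0 := by
      rintro rfl
      rw [map_zero] at hc
      exact h1.ne_zero 0 hc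
    apply h2
    have h3 : (1 : F) = c⁻¹ • x 0 := by
      rw [hc, Algebra.smul_def, ← map_mul, inv_mul_cancel₀ hc0, map_one]
    rw [h3]
    exact Submodule.smul_mem _ _ (Submodule.subset_span ⟨0, rfl⟩)
  · intro m hm
    set V : Submodule QB F := Submodule.span QB ({1} ∪ Set.range x) with hV
    have hVr : finrank QB V = N + 1 + 1 := by
      rw [hV, ← hcons, finrank_span_eq_card hli, Fintype.card_fin]
    have hVfd : FiniteDimensional QB V := FiniteDimensional.span_of_finite QB
      ((Set.finite_singleton _).union (Set.finite_range x))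
    have hinj : Function.Injective F.val.toLinearMap := Subtype.val_injective
    have hmap : ∀ W : Submodule QB F, finrank QB (W.map F.val.toLinearMap) = finrank QB W :=
      fun W => (Submodule.equivMapOfInjective F.val.toLinearMap hinj W).finrank_eq.symm
    have hpow : ∀ k, (V ^ k).map F.val.toLinearMap = (V.map F.val.toLinearMap) ^ k := by
      intro k
      exact Submodule.map_pow V F.val k
    have h1 := pow_growth (V.map F.val.toLinearMap) (by
      rw [hV, Submodule.map_span, Submodule.span_le]
      rintro _ ⟨y, hy | ⟨i, rfl⟩, rfl⟩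
      · rw [Set.mem_singleton_iff] at hy
        subst hy
        exact Lt_one
      · exact hx i) ⟨1, Submodule.subset_span (Or.inl rfl), rfl⟩ m hm
    rw [← hpow, ← hpow, hmap, hmap, hmap, hVr] at h1
    exact h1

end Pool.Agent.W256
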