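import Mathlib

/-!
# Elements of a function field which are integral at finite distance and bounded at infinity
-/

set_option autoImplicit false

namespace Pool.Agent.W256

open Polynomial IntermediateField Module

variable {K F : Type*} [Field K] [Field F] [Algebra K F]

/-- evaluation at `g` -/
noncomputable abbrev ev (K : Type*) {F : Type*} [Field K] [CommRing F] [Algebra K F] (g : F) :
    K[X] →+* F := (aeval g : K[X] →ₐ[K] F).toRingHom

theorem ev_injective {g : F} (hg : Transcendental K g) : Function.Injective (ev K g) :=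
  transcendental_iff_injective.1 hg

/-- elements of `K(g)` which are integral over `K[g]` are in `K[g]` -/
theorem exists_poly_of_integral (g : F) (hg : Transcendental K g) (c : F) (hc : c ∈ K⟮g⟯)
    (h : (ev K g).IsIntegralElem c) : ∃ p : K[X], c = aeval g p := by
  obtain ⟨a, b, hab⟩ := (mem_adjoin_simple_iff K c).1 hc
  have hinj : Function.Injective (aeval g : K[X] →ₐ[K] F) := ev_injective hg
  have hle : nonZeroDivisors K[X] ≤ (nonZeroDivisors F).comap (aeval g : K[X] →ₐ[K] F) :=
    nonZeroDivisors_le_comap_nonZeroDivisors_of_injective _ hinj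
  let j : RatFunc K →ₐ[K] F := RatFunc.liftAlgHom (aeval g) hle
  have hj : ∀ p : K[X], j (algebraMap K[X] (RatFunc K) p) = aeval g p := by
    intro p
    have := RatFunc.liftAlgHom_apply_div (aeval g : K[X] →ₐ[K] F) hle p 1
    simpa using this
  have hcomp : j.toRingHom.comp (algebraMap K[X] (RatFunc K)) = ev K g := RingHom.ext hj
  set z : RatFunc K := algebraMap K[X] (RatFunc K) a / algebraMap K[X] (RatFunc K) b with hz
  have hjz : j.toRingHom z = c := by
    change j z = c
    rw [hz, map_div₀, hj, hj, hab]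
  have h2 : (algebraMap K[X] (RatFunc K)).IsIntegralElem z := by
    apply RingHom.IsIntegralElem.of_map (g := j.toRingHom) j.toRingHom.injective
    rw [hcomp, hjz]
    exact h
  obtain ⟨p, hp⟩ := (IsIntegrallyClosed.isIntegral_iff (R := K[X]) (K := RatFunc K)).1 h2
  refine ⟨p, ?_⟩
  rw [← hjz, ← hp]
  exact hj p

theorem transcendental_inv {g : F} (hg : Transcendental K g) : Transcendental K g⁻¹ := by
  intro h
  apply hg
  have := h.inv
  rwa [inv_inv] at this

/-- polynomials in `g` whose quotient by `g ^ M` is integral over `K[1/g]` have degree at most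
`M` -/
theorem exists_poly_bounded (g : F) (hg : Transcendental K g) (c : F) (hc : c ∈ K⟮g⟯)
    (h : (ev K g).IsIntegralElem c) (M : ℕ) (h' : (ev K g⁻¹).IsIntegralElem (c * g⁻¹ ^ M)) :
    ∃ p : K[X], p.natDegree ≤ M ∧ c = aeval g p := by
  obtain ⟨p, hp⟩ := exists_poly_of_integral g hg c hc h
  have hg0 : g ≠ 0 := by
    rintro rfl
    exact hg (isAlgebraic_zero)
  have hmem : c * g⁻¹ ^ M ∈ K⟮g⁻¹⟯ := by
    have h1 : K⟮g⟯ ≤ K⟮g⁻¹⟯ := by
      rw [adjoin_simple_le_iff]
      have := inv_mem (mem_adjoin_simple_self K g⁻¹)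
      rwa [inv_inv] at this
    exact mul_mem (h1 hc) (pow_mem (mem_adjoin_simple_self K g⁻¹) _)
  obtain ⟨q, hq⟩ := exists_poly_of_integral g⁻¹ (transcendental_inv hg) _ hmem h'
  refine ⟨p, ?_, hp⟩
  let _ : Invertible (g⁻¹) := invertibleOfNonzero (inv_ne_zero hg0)
  have h3 := eval₂_reverse_mul_pow (algebraMap K F) (g⁻¹) q
  rw [← aeval_def, ← aeval_def, invOf_eq_inv, inv_inv] at h3
  -- p(g) g^k = g^M q_rev(g)
  have h4 : aeval g (p * X ^ q.natDegree) = aeval g (X ^ M * q.reverse) := by
    simp only [map_mul, map_pow, aeval_X]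
    rw [hp] at hq
    rw [← h3] at hq
    have e1 : (g⁻¹) ^ M * g ^ M = 1 := by rw [← mul_pow, inv_mul_cancel₀ hg0, one_pow]
    have e2 : (g⁻¹) ^ q.natDegree * g ^ q.natDegree = 1 := by
      rw [← mul_pow, inv_mul_cancel₀ hg0, one_pow]
    calc aeval g p * g ^ q.natDegree = (aeval g p * g⁻¹ ^ M) * (g ^ M * g ^ q.natDegree) := by
          rw [mul_assoc, ← mul_assoc (g⁻¹ ^ M), e1, one_mul]
      _ = aeval g q.reverse * (g⁻¹ ^ q.natDegree * g ^ q.natDegree) * g ^ M := by
          rw [hq]; ring
      _ = g ^ M * aeval g q.reverse := by rw [e2]; ring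
  have h5 := (transcendental_iff_injective.1 hg) h4
  by_cases hp0 : p = 0
  · rw [hp0]; simp
  have h6 := congrArg natDegree h5
  rw [natDegree_mul_X_pow _ hp0] at h6
  have h7 : (X ^ M * q.reverse).natDegree ≤ M + q.natDegree := by
    refine (natDegree_mul_le).trans ?_
    have := reverse_natDegree_le q
    rw [natDegree_X_pow]
    omega
  omega

/-- coefficients of the minimal polynomial of an integral element are integral -/
theorem coeff_minpoly_integral {A S T : Type*} [CommRing A] [Field S] [Field T] [Algebra S T]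
    (i : A →+* S) (x : T) (hx : ((algebraMap S T).comp i).IsIntegralElem x) (n : ℕ) :
    i.IsIntegralElem ((minpoly S x).coeff n) := by
  obtain ⟨p, hp, hx⟩ := hx
  have h1 : aeval x (p.map i) = 0 := by
    rw [aeval_def, eval₂_map]; exact hx
  have hint : IsIntegral S x := ⟨p.map i, hp.map _, by rw [eval₂_map]; exact hx⟩
  algebraize [i]
  exact isIntegral_coeff_of_dvd (R := A) (S := S) p (minpoly S x) hp (minpoly.monic hint)
    (minpoly.dvd S x h1) n

/-- **Zeros of functions of bounded degree.** Let `g` be transcendental over `K`, `h ≠ 0` algebraic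
over `K(g)` of degree at most `n`, integral over `K[g]` and such that `h / g ^ m` is integral over
`K[1/g]`. Then the values of `g` at the zeros of `h` are roots of a nonzero polynomial of degree at
most `m n`. -/
theorem exists_zero_poly (g h : F) (hg : Transcendental K g) (hh : h ≠ 0) (m n : ℕ)
    (hn : (minpoly K⟮g⟯ h).natDegree ≤ n)
    (h1 : (ev K g).IsIntegralElem h) (h2 : (ev K g⁻¹).IsIntegralElem (h * g⁻¹ ^ m)) :
    ∃ p : K[X], p ≠ 0 ∧ p.natDegree ≤ m * n ∧
      ∀ (R : Subalgebra K F) (hgR : g ∈ R) (hhR : h ∈ R) (φ : R →ₐ[K] K), φ ⟨h, hhR⟩ = 0 →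
        p.eval (φ ⟨g, hgR⟩) = 0 := by
  set E := K⟮g⟯ with hE
  set g' : E := AdjoinSimple.gen K g with hg'
  have hgg : algebraMap E F g' = g := AdjoinSimple.algebraMap_gen K g
  set P := minpoly E h with hP
  set r := P.natDegree with hr
  have hg0 : g ≠ 0 := by
    rintro rfl
    exact hg (isAlgebraic_zero)
  have hcomp : (algebraMap E F).comp (ev K g') = ev K g := by
    apply RingHom.ext
    intro p
    change algebraMap E F (aeval g' p) = aeval g p
    rw [← hgg, aeval_algebraMap_apply]
  have hcomp' : (algebraMap E F).comp (ev K g'⁻¹) = ev K g⁻¹ := by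
    apply RingHom.ext
    intro p
    change algebraMap E F (aeval g'⁻¹ p) = aeval g⁻¹ p
    rw [← hgg, ← map_inv₀, aeval_algebraMap_apply]
  have hint : IsIntegral E h := by
    rw [← hcomp] at h1
    obtain ⟨p, hp, hx⟩ := h1
    exact ⟨p.map _, hp.map _, by rw [eval₂_map]; exact hx⟩
  have hr0 : 0 < r := minpoly.natDegree_pos hint
  have hmonic : P.Monic := minpoly.monic hint
  -- integrality of the coefficients
  have hc : ∀ i, (ev K g).IsIntegralElem (algebraMap E F (P.coeff i)) := by
    intro i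
    rw [← hcomp]
    apply RingHom.IsIntegralElem.map
    apply coeff_minpoly_integral
    rw [hcomp]; exact h1
  have hcE : ∀ i, algebraMap E F (P.coeff i) ∈ E := fun i => (P.coeff i).2
  choose q hq using fun i => exists_poly_of_integral g hg _ (hcE i) (hc i)
  -- the constant coefficient at infinity
  have hinf : (ev K g⁻¹).IsIntegralElem (algebraMap E F (P.coeff 0) * g⁻¹ ^ (m * r)) := by
    obtain ⟨p, hp, hx⟩ := h2
    rw [← hcomp'] at hx ⊢
    have hs : algebraMap E F (g'⁻¹ ^ m) = g⁻¹ ^ m := by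
      rw [map_pow, map_inv₀, hgg]
    have hg'0 : g' ≠ 0 := by
      intro h0
      rw [h0, map_zero] at hgg
      exact hg0 hgg.symm
    -- `P.scaleRoots (g' ^ -m)` divides the image of `p`
    have hdvd : P.scaleRoots (g'⁻¹ ^ m) ∣ p.map (ev K g'⁻¹) := by
      have e1 : P ∣ (p.map (ev K g'⁻¹)).scaleRoots (g' ^ m) := by
        apply minpoly.dvd
        have e2 : aeval (h * g⁻¹ ^ m) (p.map (ev K g'⁻¹)) = 0 := by
          rw [aeval_def, eval₂_map]; exact hx
        have e3 := scaleRoots_aeval_eq_zero (r := g' ^ m) e2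
        rwa [map_pow, hgg, mul_comm h, ← mul_assoc, ← mul_pow, mul_inv_cancel₀ hg0, one_pow,
          one_mul] at e3
      have e4 := scaleRoots_dvd' _ _ (r := g'⁻¹ ^ m) (IsUnit.mk0 _ (pow_ne_zero _ (inv_ne_zero hg'0))) e1
      rwa [← scaleRoots_mul, ← mul_pow, mul_inv_cancel₀ hg'0, one_pow, scaleRoots_one] at e4
    have e5 : (ev K g'⁻¹).IsIntegralElem ((P.scaleRoots (g'⁻¹ ^ m)).coeff 0) := by
      algebraize [ev K g'⁻¹]
      exact isIntegral_coeff_of_dvd (R := K[X]) (S := E) p _ hp
        ((monic_scaleRoots_iff _).mpr hmonic) hdvd 0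
    have e6 : (P.scaleRoots (g'⁻¹ ^ m)).coeff 0 = P.coeff 0 * g'⁻¹ ^ (m * r) := by
      rw [coeff_scaleRoots, Nat.sub_zero, ← pow_mul]
    rw [e6] at e5
    have e7 := e5.map (algebraMap E F)
    rwa [map_mul, map_pow, map_inv₀, hgg] at e7
  obtain ⟨p, hpd, hp⟩ := exists_poly_bounded g hg _ (hcE 0) (hc 0) _ hinf
  refine ⟨p, ?_, hpd.trans (Nat.mul_le_mul_left m hn), ?_⟩
  · rintro rfl
    rw [map_zero] at hp
    have := minpoly.coeff_zero_ne_zero hint hh
    exact this ((map_eq_zero _).1 hp)
  · intro R hgR hhR φ hφ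
    have hq0 : q 0 = p := by
      apply transcendental_iff_injective.1 hg
      rw [← hp, ← hq 0]
    have h3 : aeval h P = 0 := minpoly.aeval E h
    rw [aeval_eq_sum_range] at h3
    have h4 : ∑ i ∈ Finset.range (r + 1), aeval (⟨g, hgR⟩ : R) (q i) * (⟨h, hhR⟩ : R) ^ i = 0 := by
      apply Subtype.ext
      rw [← R.coe_val, map_sum, map_zero, ← h3]
      refine Finset.sum_congr rfl fun i _ => ?_
      rw [map_mul, map_pow, Algebra.smul_def, hq i]
      congr 1
      exact (aeval_algHom_apply R.val (⟨g, hgR⟩ : R) (q i)).symm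
    have h5 := congrArg φ h4
    rw [map_sum, map_zero, Finset.sum_range_succ'] at h5
    simp only [map_mul, map_pow, hφ, ne_eq, Nat.succ_ne_zero, not_false_eq_true, zero_pow,
      mul_zero, Finset.sum_const_zero, zero_add, pow_zero, mul_one] at h5
    rw [hq0] at h5
    have h6 := aeval_algHom_apply φ (⟨g, hgR⟩ : R) p
    rw [← h6] at h5
    simpa [aeval_def] using h5

end Pool.Agent.W256
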