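import Pool.Agent.W256.Curve1

/-!
# Functions bounded by a given function, homogeneous form
-/

set_option autoImplicit false

namespace Pool.Agent.W256

open Polynomial

section general

/-- transitivity of integrality for ring homomorphisms -/
theorem isIntegralElem_trans {A A' B : Type*} [CommRing A] [CommRing A'] [CommRing B]
    (f : A →+* B) (f' : A' →+* B) (h : ∀ a, f.IsIntegralElem (f' a)) (x : B)
    (hx : f'.IsIntegralElem x) : f.IsIntegralElem x := by
  algebraize [f]
  let C := integralClosure A B
  let f'' : A' →+* C := f'.codRestrict C.toSubring (fun a => h a)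
  have h1 : (C.subtype : C →+* B).comp f'' = f' := by
    apply RingHom.ext; intro a; rfl
  rw [← h1] at hx
  have h2 : IsIntegral C x := hx.of_comp
  exact isIntegral_trans (R := A) (A := C) x h2

/-- a relation with unit leading coefficient gives integrality -/
theorem isIntegralElem_of_unit {A B : Type*} [CommRing A] [CommRing B] (f : A →+* B) (x : B)
    (p : A[X]) (D : ℕ) (hD : p.natDegree ≤ D) (u : A) (hu : u * p.coeff D = 1)
    (hx : p.eval₂ f x = 0) : f.IsIntegralElem x := by
  refine ⟨C u * p, ?_, by rw [eval₂_mul, hx, mul_zero]⟩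
  apply monic_of_natDegree_le_of_coeff_eq_one D
  · exact (natDegree_C_mul_le u p).trans hD
  · rw [coeff_C_mul, hu]

end general

variable {K F : Type*} [Field K] [Field F] [Algebra K F]

/-- the homomorphism `X₀ ↦ X`, `X₁ ↦ g X` -/
noncomputable def rees (K : Type*) {F : Type*} [Field K] [Field F] [Algebra K F] (g : F) :
    MvPolynomial (Fin 2) K →+* F[X] :=
  (MvPolynomial.aeval ![X, C g * X] : MvPolynomial (Fin 2) K →ₐ[K] F[X]).toRingHom

theorem rees_X0 (g : F) : rees K g (MvPolynomial.X 0) = X := by
  simp [rees]

theorem rees_X1 (g : F) : rees K g (MvPolynomial.X 1) = C g * X := by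
  simp [rees]

theorem rees_C (g : F) (a : K) : rees K g (MvPolynomial.C a) = C (algebraMap K F a) := by
  simp [rees]

/-- `h` has poles at most `m` times those of `g` -/
def IntAt (K : Type*) {F : Type*} [Field K] [Field F] [Algebra K F] (g h : F) (m : ℕ) : Prop :=
  (rees K g).IsIntegralElem (C h * X ^ m)

theorem IntAt.self (g : F) : IntAt K g g 1 := by
  have := (rees K g).isIntegralElem_map (x := MvPolynomial.X 1)
  rw [rees_X1] at this
  rwa [IntAt, pow_one]

theorem IntAt.const (g : F) (a : K) (m : ℕ) : IntAt K g (algebraMap K F a) m := by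
  have := (rees K g).isIntegralElem_map (x := MvPolynomial.C a * MvPolynomial.X 0 ^ m)
  rwa [map_mul, map_pow, rees_X0, rees_C] at this

theorem IntAt.add {g h h' : F} {m : ℕ} (H : IntAt K g h m) (H' : IntAt K g h' m) :
    IntAt K g (h + h') m := by
  have := RingHom.IsIntegralElem.add _ H H'
  rwa [← add_mul, ← C_add] at this

theorem IntAt.mul {g h h' : F} {m m' : ℕ} (H : IntAt K g h m) (H' : IntAt K g h' m') :
    IntAt K g (h * h') (m + m') := by
  have := RingHom.IsIntegralElem.mul _ H H'
  rwa [mul_mul_mul_comm, ← C_mul, ← pow_add] at this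

theorem IntAt.smul {g h : F} {m : ℕ} (a : K) (H : IntAt K g h m) : IntAt K g (a • h) m := by
  have := (IntAt.const g a 0).mul H
  rwa [zero_add, ← Algebra.smul_def] at this

/-- the space of elements with poles at most `m` times those of `g` -/
def intSub (K : Type*) {F : Type*} [Field K] [Field F] [Algebra K F] (g : F) (m : ℕ) :
    Submodule K F where
  carrier := {h | IntAt K g h m}
  add_mem' := IntAt.add
  zero_mem' := by
    have := IntAt.const (K := K) g 0 m
    rwa [map_zero] at this
  smul_mem' := fun a _ h => IntAt.smul a h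

theorem mem_intSub {g h : F} {m : ℕ} : h ∈ intSub K g m ↔ IntAt K g h m := Iff.rfl

theorem intSub_mul (g : F) (m m' : ℕ) : intSub K g m * intSub K g m' ≤ intSub K g (m + m') := by
  rw [Submodule.mul_le]
  intro h hh h' hh'
  exact hh.mul hh'

theorem pow_le_intSub {g : F} {V : Submodule K F} (hV : V ≤ intSub K g 1) (m : ℕ) :
    V ^ m ≤ intSub K g m := by
  induction m with
  | zero =>
    rw [pow_zero, Submodule.one_le]
    have := IntAt.const (K := K) g 1 0
    rwa [map_one] at this
  | succ m ih =>
    rw [pow_succ]
    exact (mul_le_mul' ih hV).trans (intSub_mul g m 1)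

theorem IntAt.trans {w g f : F} {m : ℕ} (h1 : IntAt K w g 1) (h2 : IntAt K g f m) :
    IntAt K w f m := by
  refine isIntegralElem_trans (rees K w) (rees K g) ?_ _ h2
  intro a
  induction a using MvPolynomial.induction_on with
  | C a =>
    rw [rees_C, ← rees_C w a]
    exact (rees K w).isIntegralElem_map
  | add p q hp hq => rw [map_add]; exact hp.add _ hq
  | mul_X p i hp =>
    rw [map_mul]
    refine hp.mul _ ?_
    fin_cases i
    · change (rees K w).IsIntegralElem (rees K g (MvPolynomial.X 0))
      rw [rees_X0, ← rees_X0 (K := K) w]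
      exact (rees K w).isIntegralElem_map
    · change (rees K w).IsIntegralElem (rees K g (MvPolynomial.X 1))
      rw [rees_X1]
      rw [IntAt, pow_one] at h1
      exact h1

theorem IntAt.fin {g h : F} {m : ℕ} (H : IntAt K g h m) : (ev K g).IsIntegralElem h := by
  have h1 := H.map (evalRingHom (1 : F))
  have h2 : (evalRingHom (1 : F)).comp (rees K g) = (ev K g).comp
      (MvPolynomial.aeval ![1, X] : MvPolynomial (Fin 2) K →ₐ[K] K[X]).toRingHom := by
    apply MvPolynomial.ringHom_ext
    · intro a
      simp [rees_C]
    · intro i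
      fin_cases i
      · simp [rees]
      · simp [rees]
  rw [h2] at h1
  have h3 := h1.of_comp
  simpa using h3

theorem IntAt.inf {g h : F} {m : ℕ} (hg : g ≠ 0) (H : IntAt K g h m) :
    (ev K g⁻¹).IsIntegralElem (h * g⁻¹ ^ m) := by
  have h1 := H.map (evalRingHom (g⁻¹ : F))
  have h2 : (evalRingHom (g⁻¹ : F)).comp (rees K g) = (ev K g⁻¹).comp
      (MvPolynomial.aeval ![X, 1] : MvPolynomial (Fin 2) K →ₐ[K] K[X]).toRingHom := by
    apply MvPolynomial.ringHom_ext
    · intro a
      simp [rees_C]
    · intro i
      fin_cases i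
      · simp [rees]
      · simp [rees, hg]
  rw [h2] at h1
  have h3 := h1.of_comp
  simpa using h3

end Pool.Agent.W256
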