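import Pool.Agent.W256.Curve2

/-!
# Generic linear combinations
-/

set_option autoImplicit false

namespace Pool.Agent.W256

open Polynomial

variable {K F : Type*} [Field K] [Field F] [Algebra K F]

theorem sum_eq_two (s : Fin 2 →₀ ℕ) : (s.sum fun _ e => e) = s 0 + s 1 := by
  rw [Finsupp.sum_fintype _ _ (fun _ => rfl), Fin.sum_univ_two]

/-- **Normalisation step.** If `P(u, v) = 0` with `P ≠ 0`, then for almost all constants `t` the
functions `u` and `v` are bounded by `u + t v`. -/
theorem normal_step (u v : F) (P : MvPolynomial (Fin 2) K) (hP : P ≠ 0)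
    (h : MvPolynomial.aeval ![u, v] P = 0) :
    ∃ θ : K[X], θ ≠ 0 ∧ ∀ t : K, θ.eval (-t) ≠ 0 →
      IntAt K (u + algebraMap K F t * v) u 1 ∧ IntAt K (u + algebraMap K F t * v) v 1 := by
  classical
  set D := P.totalDegree with hD
  set S := P.support.filter (fun s => s 0 + s 1 = D) with hS
  have hdeg : ∀ s ∈ P.support, s 0 + s 1 ≤ D := by
    intro s hs
    have := MvPolynomial.le_totalDegree hs
    rwa [sum_eq_two] at this
  obtain ⟨s₀, hs₀, hs₀D⟩ : ∃ s₀ ∈ P.support, s₀ 0 + s₀ 1 = D := by
    obtain ⟨s₀, hs₀, h1⟩ := Finset.exists_mem_eq_sup P.support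
      (MvPolynomial.support_nonempty.mpr hP) (fun s => s.sum fun _ e => e)
    refine ⟨s₀, hs₀, ?_⟩
    rw [hD, MvPolynomial.totalDegree, h1]
    rw [sum_eq_two]
  let θ : K[X] := ∑ s ∈ S, C (P.coeff s) * X ^ (s 0)
  have hθc : θ.coeff (s₀ 0) = P.coeff s₀ := by
    rw [finsetSum_coeff]
    rw [Finset.sum_eq_single s₀]
    · simp
    · intro s hs hne
      rw [coeff_C_mul, coeff_X_pow, if_neg, mul_zero]
      intro h0
      apply hne
      have h1 := (Finset.mem_filter.mp hs).2
      ext i
      fin_cases i
      · exact h0.symm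
      · change s 1 = s₀ 1
        omega
    · intro h0
      exact absurd (Finset.mem_filter.mpr ⟨hs₀, hs₀D⟩) h0
  refine ⟨θ, ?_, ?_⟩
  · intro h0
    rw [h0, coeff_zero] at hθc
    exact (MvPolynomial.mem_support_iff.mp hs₀) hθc.symm
  · intro t ht
    set w := u + algebraMap K F t * v with hw
    have hv : IntAt K w v 1 := by
      let A := MvPolynomial (Fin 2) K
      let z : A := MvPolynomial.X 0
      let x : A := MvPolynomial.X 1
      let p : A[X] := ∑ s ∈ P.support, C (MvPolynomial.C (P.coeff s) * z ^ (D - (s 0 + s 1))) *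
        (C x - C (MvPolynomial.C t) * X) ^ (s 0) * X ^ (s 1)
      have hlin : (C x - C (MvPolynomial.C t) * X : A[X]).natDegree ≤ 1 := by
        refine (natDegree_sub_le _ _).trans ?_
        rw [natDegree_C]
        simp only [zero_le, sup_of_le_right]
        exact (natDegree_C_mul_le _ _).trans natDegree_X_le
      have hterm : ∀ s : Fin 2 →₀ ℕ, (C (MvPolynomial.C (P.coeff s) * z ^ (D - (s 0 + s 1))) *
          (C x - C (MvPolynomial.C t) * X) ^ (s 0) * X ^ (s 1) : A[X]).natDegree ≤ s 0 + s 1 := by
        intro s
        refine (natDegree_mul_le).trans ?_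
        refine add_le_add ?_ (natDegree_X_pow_le _)
        refine (natDegree_C_mul_le _ _).trans ?_
        refine (natDegree_pow_le).trans ?_
        calc s 0 * _ ≤ s 0 * 1 := Nat.mul_le_mul_left _ hlin
          _ = s 0 := mul_one _
      have hpD : p.natDegree ≤ D :=
        natDegree_sum_le_of_forall_le _ _ fun s hs => (hterm s).trans (hdeg s hs)
      have hcoef : p.coeff D = MvPolynomial.C (θ.eval (-t)) := by
        have e1 : p.coeff D = ∑ s ∈ P.support, if s 0 + s 1 = D then
            MvPolynomial.C (P.coeff s * (-t) ^ (s 0)) else 0 := by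
          rw [finsetSum_coeff]
          refine Finset.sum_congr rfl fun s hs => ?_
          split_ifs with hsD
          · rw [hsD, Nat.sub_self, pow_zero, mul_one]
            rw [← hsD, coeff_mul_X_pow, coeff_C_mul]
            have e2 := coeff_pow_of_natDegree_le (m := s 0) hlin
            rw [mul_one] at e2
            rw [e2]
            simp only [coeff_sub, coeff_C_mul, coeff_X_one, mul_one, coeff_C_succ, zero_sub]
            rw [← MvPolynomial.C_neg, ← MvPolynomial.C_pow, ← MvPolynomial.C_mul]
          · apply coeff_eq_zero_of_natDegree_lt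
            have := hdeg s hs
            have := hterm s
            omega
        rw [e1, ← Finset.sum_filter, eval_finsetSum, map_sum]
        refine Finset.sum_congr rfl fun s _ => ?_
        simp
      rw [IntAt, pow_one]
      refine isIntegralElem_of_unit (rees K w) _ p D hpD
        (MvPolynomial.C (θ.eval (-t))⁻¹) ?_ ?_
      · rw [hcoef, ← MvPolynomial.C_mul, inv_mul_cancel₀ ht, MvPolynomial.C_1]
      · rw [eval₂_finsetSum]
        have e3 : ∀ s ∈ P.support, eval₂ (rees K w) (C v * X)
            (C (MvPolynomial.C (P.coeff s) * z ^ (D - (s 0 + s 1))) *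
              (C x - C (MvPolynomial.C t) * X) ^ (s 0) * X ^ (s 1)) =
            X ^ D * C (algebraMap K F (P.coeff s) * (u ^ (s 0) * v ^ (s 1))) := by
          intro s hs
          rw [eval₂_mul, eval₂_mul, eval₂_C, eval₂_X_pow, eval₂_pow, eval₂_sub, eval₂_C,
            eval₂_mul, eval₂_C, eval₂_X, map_mul, map_pow]
          change rees K w (MvPolynomial.C _) * rees K w (MvPolynomial.X 0) ^ _ *
            (rees K w (MvPolynomial.X 1) - rees K w (MvPolynomial.C t) * (C v * X)) ^ _ *
            (C v * X) ^ _ = _
          rw [rees_X0, rees_X1, rees_C, rees_C, hw]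
          have e4 : (C (u + algebraMap K F t * v) * X - C (algebraMap K F t) * (C v * X) : F[X]) =
              C u * X := by
            rw [C_add, C_mul]; ring
          rw [e4, mul_pow, mul_pow]
          have e5 : (X : F[X]) ^ D = X ^ (D - (s 0 + s 1)) * X ^ (s 0) * X ^ (s 1) := by
            rw [← pow_add, ← pow_add]
            congr 1
            have := hdeg s hs
            omega
          rw [e5, C_mul, C_mul, C_pow, C_pow]
          ring
        rw [Finset.sum_congr rfl e3, ← Finset.mul_sum, ← map_sum]
        have e6 : ∑ s ∈ P.support, algebraMap K F (P.coeff s) * (u ^ (s 0) * v ^ (s 1)) = 0 := by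
          rw [← h, MvPolynomial.aeval_def, MvPolynomial.eval₂_eq']
          refine Finset.sum_congr rfl fun s _ => ?_
          rw [Fin.prod_univ_two]
          rfl
        rw [e6, C_0, mul_zero]
    refine ⟨?_, hv⟩
    have h1 := (IntAt.self (K := K) w).add (hv.smul (-t))
    have h2 : w + (-t) • v = u := by
      rw [hw, Algebra.smul_def, map_neg]
      ring
    rwa [h2] at h1

end Pool.Agent.W256
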