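import Pool.Agent.W256.Curve3
import Pool.Agent.H297R2.BiTrans

/-!
# Degrees of functions: subadditivity
-/

set_option autoImplicit false

namespace Pool.Agent.W256

open Polynomial IntermediateField Module

variable {K F : Type*} [Field K] [Field F] [Algebra K F]

theorem exists_const [IsAlgClosed K] (f : F) (hf : IsAlgebraic K f) :
    ∃ c : K, f = algebraMap K F c := by
  have h := minpoly.mem_range_of_degree_eq_one K f
    (IsAlgClosed.degree_eq_one_of_irreducible K (minpoly.irreducible hf.isIntegral))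
  obtain ⟨c, hc⟩ := h
  exact ⟨c, hc.symm⟩

theorem relfinrank_sup (x y : F) (h : IsAlgebraic K⟮x⟯ y) :
    relfinrank K⟮x⟯ (K⟮x⟯ ⊔ K⟮y⟯) = (minpoly K⟮x⟯ y).natDegree := by
  have hle : K⟮x⟯ ≤ K⟮x⟯ ⊔ K⟮y⟯ := le_sup_left
  rw [relfinrank_eq_finrank_of_le hle]
  have h1 : extendScalars hle = K⟮x⟯⟮y⟯ := by
    apply restrictScalars_injective K
    rw [extendScalars_restrictScalars, restrictScalars_adjoin]
    apply le_antisymm
    · apply sup_le
      · intro z hz
        exact subset_adjoin _ _ (Or.inl hz)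
      · rw [adjoin_simple_le_iff]
        exact subset_adjoin _ _ (Or.inr rfl)
    · rw [adjoin_le_iff]
      rintro z (hz | hz)
      · exact hle hz
      · rw [Set.mem_singleton_iff] at hz
        rw [hz]
        exact (le_sup_right : K⟮y⟯ ≤ _) (mem_adjoin_simple_self K y)
  rw [h1, adjoin.finrank h.isIntegral]

/-- `f` is constant or the field has degree at most `d` over the field generated by `f` -/
def DegBd (K : Type*) {F : Type*} [Field K] [Field F] [Algebra K F] (f : F) (d : ℕ) : Prop :=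
  (∃ c : K, f = algebraMap K F c) ∨ (FiniteDimensional K⟮f⟯ F ∧ finrank K⟮f⟯ F ≤ d)

theorem DegBd.congr {f f' : F} {d : ℕ} (h : K⟮f⟯ = K⟮f'⟯)
    (hc : (∃ c : K, f = algebraMap K F c) → ∃ c : K, f' = algebraMap K F c)
    (H : DegBd K f d) : DegBd K f' d := by
  rcases H with H | H
  · exact Or.inl (hc H)
  · right; rwa [h] at H

theorem DegBd.smul {f : F} {d : ℕ} (t : K) (ht : t ≠ 0) (H : DegBd K f d) :
    DegBd K (algebraMap K F t * f) d := by
  refine H.congr ?_ ?_
  · have ht' : algebraMap K F t ≠ 0 := by simpa using ht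
    apply le_antisymm
    · rw [adjoin_simple_le_iff]
      have h1 : (algebraMap K F t)⁻¹ * (algebraMap K F t * f) ∈ K⟮algebraMap K F t * f⟯ :=
        mul_mem (inv_mem (IntermediateField.algebraMap_mem _ t)) (mem_adjoin_simple_self K _)
      rwa [← mul_assoc, inv_mul_cancel₀ ht', one_mul] at h1
    · rw [adjoin_simple_le_iff]
      exact mul_mem (IntermediateField.algebraMap_mem _ t) (mem_adjoin_simple_self K _)
  · rintro ⟨c, rfl⟩
    exact ⟨t * c, by rw [map_mul]⟩

theorem DegBd.neg {f : F} {d : ℕ} (H : DegBd K f d) : DegBd K (-f) d := by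
  have := H.smul (-1 : K) (neg_ne_zero.mpr one_ne_zero)
  rwa [map_neg, map_one, neg_one_mul] at this

theorem DegBd.mono {f : F} {d e : ℕ} (hde : d ≤ e) (H : DegBd K f d) : DegBd K f e := by
  rcases H with H | H
  · exact Or.inl H
  · exact Or.inr ⟨H.1, H.2.trans hde⟩

theorem DegBd.add_const {f : F} {d : ℕ} (c : K) (H : DegBd K f d) :
    DegBd K (f + algebraMap K F c) d := by
  refine H.congr ?_ ?_
  · apply le_antisymm
    · rw [adjoin_simple_le_iff]
      have h1 : f + algebraMap K F c - algebraMap K F c ∈ K⟮f + algebraMap K F c⟯ :=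
        sub_mem (mem_adjoin_simple_self K _) (IntermediateField.algebraMap_mem _ c)
      rwa [add_sub_cancel_right] at h1
    · rw [adjoin_simple_le_iff]
      exact add_mem (mem_adjoin_simple_self K _) (IntermediateField.algebraMap_mem _ c)
  · rintro ⟨c', rfl⟩
    exact ⟨c' + c, by rw [map_add]⟩

/-- **Subadditivity of degrees.** -/
theorem DegBd.sub [IsAlgClosed K] {u v : F} {a b : ℕ} (hu : DegBd K u a) (hv : DegBd K v b) :
    DegBd K (v - u) (a + b) := by
  by_cases hcu : ∃ c : K, u = algebraMap K F c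
  · obtain ⟨c, rfl⟩ := hcu
    have h1 := hv.add_const (-c)
    rw [map_neg, ← sub_eq_add_neg] at h1
    exact h1.mono (Nat.le_add_left _ _)
  by_cases hcv : ∃ c : K, v = algebraMap K F c
  · obtain ⟨c, rfl⟩ := hcv
    have h1 := hu.neg.add_const c
    rw [show -u + algebraMap K F c = algebraMap K F c - u by ring] at h1
    exact h1.mono (Nat.le_add_right _ _)
  by_cases hcw : ∃ c : K, v - u = algebraMap K F c
  · exact Or.inl hcw
  have tu : Transcendental K u := fun h => hcu (exists_const u h)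
  have tw : Transcendental K (v - u) := fun h => hcw (exists_const _ h)
  have tv : Transcendental K v := fun h => hcv (exists_const v h)
  obtain ⟨fu, hu⟩ := hu.resolve_left hcu
  obtain ⟨fv, hv⟩ := hv.resolve_left hcv
  set E := K⟮u⟯ ⊔ K⟮v⟯ with hE
  set w := v - u with hw
  have algv : IsAlgebraic K⟮u⟯ v := Algebra.IsAlgebraic.isAlgebraic v
  have algu : IsAlgebraic K⟮v⟯ u := Algebra.IsAlgebraic.isAlgebraic u
  have e1 : (minpoly K⟮u⟯ v).natDegree * finrank E F = finrank K⟮u⟯ F := by
    rw [← relfinrank_sup u v algv]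
    exact relfinrank_mul_finrank_top le_sup_left
  have e2 : (minpoly K⟮v⟯ u).natDegree * finrank E F = finrank K⟮v⟯ F := by
    rw [← relfinrank_sup v u algu, sup_comm, ← hE]
    exact relfinrank_mul_finrank_top le_sup_right
  set a' := (minpoly K⟮u⟯ v).natDegree with ha'
  set b' := (minpoly K⟮v⟯ u).natDegree with hb'
  have d1 : Pool.Agent.H297R2.DegLe K a' u v :=
    Pool.Agent.H297R2.degLe_of_minpoly algv le_rfl
  have d2 : Pool.Agent.H297R2.DegLe K b' v u :=
    Pool.Agent.H297R2.degLe_of_minpoly algu le_rfl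
  obtain ⟨P, hP0, hPa, hPb, hP⟩ := Pool.Agent.H297R2.simul u v tu a' b' d1 d2
  have d3 := Pool.Agent.H297R2.subst_deg P hP0 a' b' hPa hPb hP
  obtain ⟨algw, hd⟩ := d3.minpoly_le tw K⟮w⟯ (AdjoinSimple.gen K w)
    (AdjoinSimple.algebraMap_gen K w)
  have hEw : K⟮w⟯ ⊔ K⟮u⟯ = E := by
    apply le_antisymm
    · apply sup_le _ le_sup_left
      rw [adjoin_simple_le_iff]
      exact sub_mem ((le_sup_right : K⟮v⟯ ≤ E) (mem_adjoin_simple_self K v))
        ((le_sup_left : K⟮u⟯ ≤ E) (mem_adjoin_simple_self K u))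
    · apply sup_le le_sup_right
      rw [adjoin_simple_le_iff]
      have h1 : w + u ∈ K⟮w⟯ ⊔ K⟮u⟯ :=
        add_mem ((le_sup_left : K⟮w⟯ ≤ _) (mem_adjoin_simple_self K w))
          ((le_sup_right : K⟮u⟯ ≤ K⟮w⟯ ⊔ K⟮u⟯) (mem_adjoin_simple_self K u))
      rwa [hw, sub_add_cancel] at h1
  have e3 : (minpoly K⟮w⟯ u).natDegree * finrank E F = finrank K⟮w⟯ F := by
    rw [← relfinrank_sup w u algw, hEw]
    exact relfinrank_mul_finrank_top (hEw ▸ le_sup_left)
  have hpos : 0 < finrank E F := by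
    rcases Nat.eq_zero_or_pos (finrank E F) with h0 | h0
    · rw [h0, mul_zero] at e1
      exact absurd e1.symm (ne_of_gt finrank_pos)
    · exact h0
  have hposw : 0 < finrank K⟮w⟯ F := by
    rw [← e3]
    exact Nat.mul_pos (minpoly.natDegree_pos algw.isIntegral) hpos
  refine Or.inr ⟨FiniteDimensional.of_finrank_pos hposw, ?_⟩
  rw [← e3]
  calc (minpoly K⟮w⟯ u).natDegree * finrank E F ≤ (a' + b') * finrank E F :=
        Nat.mul_le_mul_right _ hd
    _ = finrank K⟮u⟯ F + finrank K⟮v⟯ F := by rw [add_mul, e1, e2]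
    _ ≤ a + b := add_le_add hu hv

theorem DegBd.add [IsAlgClosed K] {u v : F} {a b : ℕ} (hu : DegBd K u a) (hv : DegBd K v b) :
    DegBd K (u + v) (a + b) := by
  have := hu.neg.sub hv
  rwa [sub_neg_eq_add, add_comm v] at this

end Pool.Agent.W256
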