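import Pool.Agent.W256.Curve4
import Pool.Agent.W256.Growth

/-!
# Dimensions of spaces of functions bounded by a given function
-/

set_option autoImplicit false

namespace Pool.Agent.W256

open Polynomial IntermediateField Module

section points

variable {K A : Type*} [Field K] [IsAlgClosed K] [CommRing A] [IsDomain A] [Algebra K A]
  [Algebra.FiniteType K A]

/-- evaluation at finitely many points -/
noncomputable def evPts {d : ℕ} (φ : Fin d → (A →ₐ[K] K)) : A →ₗ[K] (Fin d → K) :=
  LinearMap.pi (fun i => (φ i).toLinearMap)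

/-- Independent points at which `g` takes distinct values. -/
theorem exists_points (g : A) (hg : ∀ c : K, g ≠ algebraMap K A c) (W : Submodule K A)
    [FiniteDimensional K W] (d : ℕ) (hd : d ≤ finrank K W) :
    ∃ φ : Fin d → (A →ₐ[K] K), Function.Injective (fun i => φ i g) ∧
      Function.Surjective ((evPts φ).comp W.subtype) := by
  induction d with
  | zero =>
    exact ⟨fun i => i.elim0, fun i => i.elim0, fun y => ⟨0, Subsingleton.elim _ _⟩⟩
  | succ d ih =>
    obtain ⟨φ, hinj, hs⟩ := ih (by omega)
    have hk : 0 < finrank K (LinearMap.ker ((evPts φ).comp W.subtype)) := by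
      have h1 := LinearMap.finrank_range_add_finrank_ker ((evPts φ).comp W.subtype)
      rw [LinearMap.range_eq_top.mpr hs, finrank_top, finrank_fin_fun] at h1
      omega
    have : Nontrivial (LinearMap.ker ((evPts φ).comp W.subtype)) := finrank_pos_iff.mp hk
    obtain ⟨⟨⟨r, hrW⟩, hr1⟩, hr2⟩ := exists_ne (0 : LinearMap.ker ((evPts φ).comp W.subtype))
    have hr0 : r ≠ 0 := fun h => hr2 (Subtype.ext (Subtype.ext h))
    have her : evPts φ r = 0 := hr1
    have hprod : ∏ i, (g - algebraMap K A (φ i g)) ≠ 0 :=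
      Finset.prod_ne_zero_iff.mpr fun i _ => sub_ne_zero.mpr (hg _)
    obtain ⟨ψ, hψ⟩ := exists_point (K := K) (A := A) (r * ∏ i, (g - algebraMap K A (φ i g)))
      (mul_ne_zero hr0 hprod)
    rw [map_mul, map_prod] at hψ
    have hψr : ψ r ≠ 0 := left_ne_zero_of_mul hψ
    have hψg : ∀ i, ψ g ≠ φ i g := by
      intro i h
      have h1 := Finset.prod_ne_zero_iff.mp (right_ne_zero_of_mul hψ) i (Finset.mem_univ _)
      apply h1
      rw [map_sub, h]
      simp
    refine ⟨Fin.cons ψ φ, ?_, ?_⟩
    · intro i j hij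
      revert hij
      refine Fin.cases ?_ (fun i => ?_) i <;> refine Fin.cases ?_ (fun j => ?_) j
      · intro _; rfl
      · intro h; exact absurd h (hψg j)
      · intro h; exact absurd h.symm (hψg i)
      · intro h; exact congrArg Fin.succ (hinj h)
    · intro v
      obtain ⟨w, hw⟩ := hs (fun j => v j.succ)
      have hw' : ∀ j, φ j w = v j.succ := fun j => congrFun hw j
      refine ⟨w + ((v 0 - ψ w) * (ψ r)⁻¹) • ⟨r, hrW⟩, ?_⟩
      funext i
      refine Fin.cases ?_ (fun j => ?_) i
      · change ψ ((w : A) + ((v 0 - ψ w) * (ψ r)⁻¹) • r) = v 0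
        rw [map_add, map_smul, smul_eq_mul]
        field_simp
        ring
      · change φ j ((w : A) + ((v 0 - ψ w) * (ψ r)⁻¹) • r) = v j.succ
        have h3 : φ j r = 0 := congrFun her j
        rw [map_add, map_smul, h3, smul_zero, add_zero, hw']

end points

variable {K F : Type*} [Field K] [IsAlgClosed K] [Field F] [Algebra K F]

theorem transcendental_of_not_const {f : F} (h : ¬ ∃ c : K, f = algebraMap K F c) :
    Transcendental K f := fun h1 => h (exists_const f h1)

/-- **Dimension bound.** -/
theorem finrank_pow_le (g : F) (hg : Transcendental K g) [FiniteDimensional K⟮g⟯ F]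
    (V : Submodule K F) [FiniteDimensional K V] (hV : V ≤ intSub K g 1) (m : ℕ) :
    finrank K (V ^ m : Submodule K F) ≤ m * finrank K⟮g⟯ F + 1 := by
  classical
  by_contra hcon
  push Not at hcon
  set n := finrank K⟮g⟯ F with hn
  set R : Subalgebra K F := Algebra.adjoin K ((V : Set F) ∪ (K ∙ g : Submodule K F)) with hR
  have hRfg : R.FG := fg_adjoin V (K ∙ g)
  have hVR : ∀ x ∈ V, x ∈ R := fun x hx => Algebra.subset_adjoin (Or.inl hx)
  have hgR : g ∈ R := Algebra.subset_adjoin (Or.inr (Submodule.mem_span_singleton_self g))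
  have hpow : V ^ m ≤ Subalgebra.toSubmodule R := by
    clear hcon
    induction m with
    | zero =>
      rw [pow_zero, Submodule.one_le]
      exact R.one_mem
    | succ m ih =>
      rw [pow_succ, Submodule.mul_le]
      intro x hx y hy
      exact R.mul_mem (ih hx) (hVR y hy)
  have hfdm : FiniteDimensional K (V ^ m : Submodule K F) :=
    Module.Finite.iff_fg.mpr (Submodule.FG.pow (Module.Finite.iff_fg.mp inferInstance) m)
  have hft : Algebra.FiniteType K R := R.fg_iff_finiteType.mp hRfg
  set W : Submodule K R := (V ^ m).comap R.val.toLinearMap with hW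
  have hWm : W.map R.val.toLinearMap = V ^ m := by
    rw [hW, Submodule.map_comap_eq, inf_eq_right]
    intro x hx
    exact ⟨⟨x, hpow hx⟩, rfl⟩
  have hWe : W ≃ₗ[K] (V ^ m : Submodule K F) :=
    (Submodule.equivMapOfInjective R.val.toLinearMap Subtype.val_injective W).trans
      (LinearEquiv.ofEq _ _ hWm)
  have hWfd : FiniteDimensional K W := LinearEquiv.finiteDimensional hWe.symm
  have hWr : finrank K W = finrank K (V ^ m : Submodule K F) := hWe.finrank_eq
  obtain ⟨φ, hinj, hs⟩ := exists_points (K := K) (A := R) ⟨g, hgR⟩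
    (fun c h => hg (by
      have : g = algebraMap K F c := congrArg Subtype.val h
      rw [this]; exact isAlgebraic_algebraMap c)) W (m * n + 1) (by omega)
  have hk : 0 < finrank K (LinearMap.ker ((evPts φ).comp W.subtype)) := by
    have h1 := LinearMap.finrank_range_add_finrank_ker ((evPts φ).comp W.subtype)
    rw [LinearMap.range_eq_top.mpr hs, finrank_top, finrank_fin_fun] at h1
    omega
  have : Nontrivial (LinearMap.ker ((evPts φ).comp W.subtype)) := finrank_pos_iff.mp hk
  obtain ⟨⟨⟨⟨h, hhR⟩, hhW⟩, hh1⟩, hh2⟩ :=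
    exists_ne (0 : LinearMap.ker ((evPts φ).comp W.subtype))
  have hh0 : h ≠ 0 := fun h0 => hh2 (Subtype.ext (Subtype.ext (Subtype.ext h0)))
  have hφh : ∀ i, φ i ⟨h, hhR⟩ = 0 := fun i => congrFun hh1 i
  have hhI : IntAt K g h m := pow_le_intSub hV m hhW
  have hg0 : g ≠ 0 := by
    rintro rfl
    exact hg isAlgebraic_zero
  obtain ⟨p, hp0, hpd, hp⟩ := exists_zero_poly g h hg hh0 m n (minpoly.natDegree_le h)
    hhI.fin (hhI.inf hg0)
  have hroots : ∀ i, p.eval (φ i ⟨g, hgR⟩) = 0 := fun i => hp R hgR hhR (φ i) (hφh i)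
  have hcard := Polynomial.card_le_degree_of_subset_roots (p := p)
    (Z := Finset.univ.image (fun i => φ i ⟨g, hgR⟩)) (by
      intro x hx
      have hx' : x ∈ Finset.univ.image (fun i => φ i ⟨g, hgR⟩) := hx
      obtain ⟨i, -, rfl⟩ := Finset.mem_image.mp hx'
      exact (mem_roots hp0).mpr (hroots i))
  rw [Finset.card_image_of_injective _ hinj, Finset.card_univ, Fintype.card_fin] at hcard
  omega

/-- **Generic combinations.** -/
theorem exists_generic (hdep : ∀ u v : F, ∃ P : MvPolynomial (Fin 2) K, P ≠ 0 ∧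
    MvPolynomial.aeval ![u, v] P = 0) {ι : Type*} [DecidableEq ι] (s : Finset ι) (f : ι → F)
    (d : ι → ℕ) (hd : ∀ i ∈ s, DegBd K (f i) (d i)) :
    ∃ g : F, (∀ i ∈ s, IntAt K g (f i) 1) ∧ DegBd K g (∑ i ∈ s, d i) := by
  classical
  induction s using Finset.induction_on with
  | empty =>
    refine ⟨0, fun i hi => absurd hi (Finset.notMem_empty i), Or.inl ⟨0, (map_zero _).symm⟩⟩
  | insert i s his ih =>
    obtain ⟨g, hg, hgd⟩ := ih (fun j hj => hd j (Finset.mem_insert_of_mem hj))
    obtain ⟨P, hP0, hP⟩ := hdep g (f i)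
    obtain ⟨θ, hθ, hθt⟩ := normal_step g (f i) P hP0 hP
    obtain ⟨t, ht⟩ := Infinite.exists_notMem_finset (insert 0 (θ.roots.toFinset.image (fun x => -x)))
    rw [Finset.mem_insert, not_or] at ht
    have ht0 := ht.1
    have ht1 : θ.eval (-t) ≠ 0 := by
      intro h0
      apply ht.2
      rw [Finset.mem_image]
      exact ⟨-t, by rw [Multiset.mem_toFinset, mem_roots hθ]; exact h0, neg_neg t⟩
    obtain ⟨h1, h2⟩ := hθt t ht1
    refine ⟨g + algebraMap K F t * f i, ?_, ?_⟩
    · intro j hj
      rcases Finset.mem_insert.mp hj with rfl | hj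
      · exact h2
      · exact h1.trans (hg j hj)
    · rw [Finset.sum_insert his, add_comm (d i)]
      exact hgd.add ((hd i (Finset.mem_insert_self _ _)).smul t ht0)

/-- bounded by a constant means constant -/
theorem const_of_intAt {g f : F} (hg : ∃ c : K, g = algebraMap K F c) (h : IntAt K g f 1) :
    ∃ c : K, f = algebraMap K F c := by
  obtain ⟨c, rfl⟩ := hg
  have h1 := h.fin
  apply exists_const
  have h2 : ev K (algebraMap K F c) = (algebraMap K F).comp (evalRingHom c) := by
    apply RingHom.ext
    intro p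
    change aeval (algebraMap K F c) p = algebraMap K F (p.eval c)
    rw [aeval_algebraMap_apply]
    simp [aeval_def]
  rw [h2] at h1
  have h3 : IsIntegral K f := h1.of_comp
  exact h3.isAlgebraic

end Pool.Agent.W256
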