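import Mathlib

/-!
# Points of finitely generated algebras and functionals which are multiplicative on them
-/

set_option autoImplicit false

namespace Pool.Agent.W256

open Module

/-- points of a reduced finitely generated algebra over an algebraically closed field separate
elements from zero -/
theorem exists_point {K A : Type*} [Field K] [IsAlgClosed K] [CommRing A] [Algebra K A]
    [Algebra.FiniteType K A] [IsReduced A] (r : A) (hr : r ≠ 0) : ∃ φ : A →ₐ[K] K, φ r ≠ 0 := by
  have : IsJacobsonRing A := isJacobsonRing_of_finiteType (A := K) (B := A)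
  have h1 : (⊥ : Ideal A).jacobson = ⊥ := by
    have h := (isJacobsonRing_iff.mp (inferInstance : IsJacobsonRing A)) ⊥
    apply h
    rw [Ideal.isRadical_bot_iff] 
    infer_instance
  have h2 : r ∉ (⊥ : Ideal A).jacobson := by
    rw [h1]; simpa using hr
  rw [Ideal.jacobson, Ideal.mem_sInf] at h2
  push Not at h2
  obtain ⟨m, ⟨-, hm⟩, hrm⟩ := h2
  have := hm
  letI : Field (A ⧸ m) := Ideal.Quotient.field m
  have : Algebra.FiniteType K (A ⧸ m) := inferInstance
  have : Module.Finite K (A ⧸ m) := finite_of_finite_type_of_isJacobsonRing K (A ⧸ m)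
  have hb : Function.Bijective (algebraMap K (A ⧸ m)) :=
    IsAlgClosed.algebraMap_bijective_of_isIntegral
  let e : K ≃ₐ[K] (A ⧸ m) := AlgEquiv.ofBijective (Algebra.ofId K (A ⧸ m)) hb
  refine ⟨e.symm.toAlgHom.comp (Ideal.Quotient.mkₐ K m), ?_⟩
  intro h
  have h3 : e.symm (Ideal.Quotient.mk m r) = 0 := h
  have h4 : Ideal.Quotient.mk m r = 0 := by
    have := congrArg e h3
    rwa [AlgEquiv.apply_symm_apply, map_zero] at this
  exact hrm (Ideal.Quotient.eq_zero_iff_mem.mp h4)

/-- **Evaluation at independent points.** Let `R` be a finitely generated subalgebra of a field `L`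
over an algebraically closed field `K`, `u` a nonzero element of `R`, `W ⊆ R` a subspace and
`d ≤ dim W`.  There is a linear map `e` from `L` to `K ^ d` which is multiplicative on `R`, maps `W`
onto `K ^ d` and for which all coordinates of `e u` are nonzero. -/
theorem exists_eval {K L : Type*} [Field K] [IsAlgClosed K] [Field L] [Algebra K L]
    (R : Subalgebra K L) (hR : R.FG) (u : L) (huR : u ∈ R) (hu : u ≠ 0)
    (W : Submodule K L) [FiniteDimensional K W]
    (hW : ∀ x ∈ W, x ∈ R) (d : ℕ) (hd : d ≤ finrank K W) :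
    ∃ e : L →ₗ[K] (Fin d → K), (∀ x ∈ R, ∀ y ∈ R, e (x * y) = e x * e y) ∧
      (∀ i, e u i ≠ 0) ∧ Function.Surjective (e.comp W.subtype) := by
  induction d with
  | zero =>
    exact ⟨0, fun _ _ _ _ => Subsingleton.elim _ _, fun i => i.elim0,
      fun y => ⟨0, Subsingleton.elim _ _⟩⟩
  | succ d ih =>
    obtain ⟨e, he, heu, hs⟩ := ih (by omega)
    -- a nonzero element of `W` in the kernel
    have hk : 0 < finrank K (LinearMap.ker (e.comp W.subtype)) := by
      have h1 := LinearMap.finrank_range_add_finrank_ker (e.comp W.subtype)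
      rw [LinearMap.range_eq_top.mpr hs, finrank_top, finrank_fin_fun] at h1
      omega
    have : Nontrivial (LinearMap.ker (e.comp W.subtype)) := finrank_pos_iff.mp hk
    obtain ⟨⟨⟨r, hrW⟩, hr1⟩, hr2⟩ := exists_ne (0 : LinearMap.ker (e.comp W.subtype))
    have hr0 : r ≠ 0 := fun h => hr2 (Subtype.ext (Subtype.ext h))
    have her : e r = 0 := hr1
    have hrR := hW r hrW
    have : Algebra.FiniteType K R := R.fg_iff_finiteType.mp hR
    obtain ⟨φ, hφ⟩ := exists_point (K := K) (A := R) (⟨r, hrR⟩ * ⟨u, huR⟩)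
      (fun h => mul_ne_zero hr0 hu (congrArg Subtype.val h))
    rw [map_mul] at hφ
    obtain ⟨ψ, hψ⟩ := LinearMap.exists_extend (p := Subalgebra.toSubmodule R) φ.toLinearMap
    have hψ' : ∀ (x : L) (hx : x ∈ R), ψ x = φ ⟨x, hx⟩ := by
      intro x hx
      exact LinearMap.congr_fun hψ ⟨x, hx⟩
    have hψr : ψ r ≠ 0 := by rw [hψ' r hrR]; exact left_ne_zero_of_mul hφ
    have hψu : ψ u ≠ 0 := by rw [hψ' u huR]; exact right_ne_zero_of_mul hφ
    let e' : L →ₗ[K] (Fin (d + 1) → K) :=
      LinearMap.pi (fun i => Fin.cases ψ (fun j => (LinearMap.proj j).comp e) i)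
    have h0 : ∀ x, e' x 0 = ψ x := fun x => rfl
    have hsucc : ∀ x (j : Fin d), e' x j.succ = e x j := fun x j => rfl
    refine ⟨e', ?_, ?_, ?_⟩
    · intro x hx y hy
      funext i
      refine Fin.cases ?_ (fun j => ?_) i
      · rw [Pi.mul_apply, h0, h0, h0, hψ' (x * y) (R.mul_mem hx hy)]
        have : (⟨x * y, R.mul_mem hx hy⟩ : R) = ⟨x, hx⟩ * ⟨y, hy⟩ := rfl
        rw [this, map_mul, ← hψ' x hx, ← hψ' y hy]
      · rw [Pi.mul_apply, hsucc, hsucc, hsucc, he x hx y hy, Pi.mul_apply]
    · intro i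
      refine Fin.cases ?_ (fun j => ?_) i
      · rw [h0]; exact hψu
      · rw [hsucc]; exact heu j
    · intro v
      obtain ⟨w, hw⟩ := hs (fun j => v j.succ)
      have hw' : e w = fun j => v j.succ := hw
      refine ⟨w + ((v 0 - ψ w) * (ψ r)⁻¹) • ⟨r, hrW⟩, ?_⟩
      funext i
      refine Fin.cases ?_ (fun j => ?_) i
      · change e' ((w : L) + ((v 0 - ψ w) * (ψ r)⁻¹) • r) 0 = v 0
        rw [h0, map_add, map_smul, smul_eq_mul]
        field_simp
        ring
      · change e' ((w : L) + ((v 0 - ψ w) * (ψ r)⁻¹) • r) j.succ = v j.succ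
        rw [hsucc, map_add, map_smul, her, smul_zero, add_zero, hw']

end Pool.Agent.W256
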